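import Mathlib
set_option autoImplicit false

/-!
# Several commuting copies of a group of matrices (helper82, for helper67)
-/

namespace Pool.Agent.H82.BH

open Matrix

/-- exchange of the blocks `[0, r)` and `[m, m + r)` -/
def sw (m r a : ℕ) : ℕ := if a < r then a + m else if m ≤ a ∧ a < m + r then a - m else a

theorem sw_lt {m r n a : ℕ} (hn : m + r ≤ n) (ha : a < n) : sw m r a < n := by
  unfold sw
  split_ifs <;> omega

theorem sw_sw {m r a : ℕ} (hm : m = 0 ∨ r ≤ m) : sw m r (sw m r a) = a := by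
  unfold sw
  split_ifs <;> omega

theorem sw_lt_r {m r a : ℕ} (hm : m = 0 ∨ r ≤ m) : sw m r a < r ↔ m ≤ a ∧ a < m + r := by
  unfold sw
  split_ifs <;> omega

theorem sw_zero (r a : ℕ) : sw 0 r a = a := by
  unfold sw
  split_ifs <;> omega

/-- the permutation -/
def sg {m r n : ℕ} (hm : m = 0 ∨ r ≤ m) (hn : m + r ≤ n) : Equiv.Perm (Fin n) where
  toFun a := ⟨sw m r a, sw_lt hn a.2⟩
  invFun a := ⟨sw m r a, sw_lt hn a.2⟩
  left_inv _ := Fin.ext (sw_sw hm)
  right_inv _ := Fin.ext (sw_sw hm)

theorem copies {F : Type} [Field F] {n r K : ℕ}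
    (T : Subgroup (Matrix.SpecialLinearGroup (Fin n) F))
    (hT : ∀ t ∈ T, ∀ i j : Fin n, (r ≤ (i : ℕ) ∨ r ≤ (j : ℕ)) →
      (t : Matrix (Fin n) (Fin n) F) i j = (1 : Matrix (Fin n) (Fin n) F) i j)
    (hK : 0 < K) (hn : K * r < n) :
    ∃ (ψ : (Fin K → T) →* Matrix.SpecialLinearGroup (Fin n) F) (i0 : Fin K),
      (∀ t : T, ψ (Pi.mulSingle i0 t) = t) ∧
      (∀ (i : Fin K) (t : T), ∃ g, ψ (Pi.mulSingle i t) = g * ψ (Pi.mulSingle i0 t) * g⁻¹) ∧
      ∀ t : Fin K → T,
        Nat.card {i // t i ≠ 1} ≤ ((ψ t : Matrix (Fin n) (Fin n) F) - 1).rank ∧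
        ((ψ t : Matrix (Fin n) (Fin n) F) - 1).rank ≤ K * r := by
  classical
  have hm : ∀ i : Fin K, (i : ℕ) * r = 0 ∨ r ≤ (i : ℕ) * r := by
    intro i
    rcases Nat.eq_zero_or_pos (i : ℕ) with h | h
    · left
      rw [h, zero_mul]
    · right
      exact Nat.le_mul_of_pos_left r h
  have hmn : ∀ i : Fin K, (i : ℕ) * r + r ≤ K * r := by
    intro i
    have h := Nat.mul_le_mul_right r i.2
    rwa [Nat.succ_eq_add_one, Nat.add_mul, one_mul] at h
  obtain ⟨σ, hσv⟩ : ∃ σ : Fin K → Equiv.Perm (Fin n),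
      ∀ i a, ((σ i a : Fin n) : ℕ) = sw ((i : ℕ) * r) r (a : ℕ) :=
    ⟨fun i => sg (hm i) ((hmn i).trans hn.le), fun i a => rfl⟩
  have hσσ : ∀ i a, σ i (σ i a) = a := fun i a =>
    Fin.ext (by rw [hσv, hσv]; exact sw_sw (hm i))
  have hdis : ∀ (i j : Fin K) (c : Fin n), ((σ i c : Fin n) : ℕ) < r →
      ((σ j c : Fin n) : ℕ) < r → i = j := by
    intro i j c h1 h2
    rw [hσv, sw_lt_r (hm _)] at h1 h2
    by_contra hne
    rcases lt_or_gt_of_ne hne with h | h
    · have h3 := Nat.mul_le_mul_right r (Nat.succ_le_of_lt (Fin.lt_def.1 h))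
      rw [Nat.succ_eq_add_one, Nat.add_mul, one_mul] at h3
      omega
    · have h3 := Nat.mul_le_mul_right r (Nat.succ_le_of_lt (Fin.lt_def.1 h))
      rw [Nat.succ_eq_add_one, Nat.add_mul, one_mul] at h3
      omega
  obtain ⟨N, hN⟩ : ∃ N : Fin K → T → Matrix (Fin n) (Fin n) F, ∀ i t,
      N i t = ((t : Matrix.SpecialLinearGroup (Fin n) F) : Matrix (Fin n) (Fin n) F).submatrix
        (σ i) (σ i) - 1 := ⟨_, fun _ _ => rfl⟩
  have hNe : ∀ i t a b, N i t a b =
      ((t : Matrix.SpecialLinearGroup (Fin n) F) : Matrix (Fin n) (Fin n) F) (σ i a) (σ i b) -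
        (1 : Matrix (Fin n) (Fin n) F) (σ i a) (σ i b) := by
    intro i t a b
    rw [hN, Matrix.sub_apply, Matrix.submatrix_apply]
    simp only [Matrix.one_apply, EmbeddingLike.apply_eq_iff_eq]
  have hN0 : ∀ i t a b, (r ≤ ((σ i a : Fin n) : ℕ) ∨ r ≤ ((σ i b : Fin n) : ℕ)) →
      N i t a b = 0 := by
    intro i t a b h
    rw [hNe, hT t.1 t.2 _ _ h, sub_self]
  have hNN : ∀ i j x y, i ≠ j → N i x * N j y = 0 := by
    intro i j x y hij
    ext a b
    rw [Matrix.mul_apply, Matrix.zero_apply]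
    refine Finset.sum_eq_zero fun c _ => ?_
    by_cases h1 : ((σ i c : Fin n) : ℕ) < r
    · have h2 : ¬ ((σ j c : Fin n) : ℕ) < r := fun h2 => hij (hdis i j c h1 h2)
      rw [hN0 j y c b (Or.inl (not_lt.1 h2)), mul_zero]
    · rw [hN0 i x a c (Or.inr (not_lt.1 h1)), zero_mul]
  have hNmul : ∀ i x y, N i (x * y) = N i x + N i y + N i x * N i y := by
    intro i x y
    have h1 : ((((x * y : T) : Matrix.SpecialLinearGroup (Fin n) F)) :
        Matrix (Fin n) (Fin n) F).submatrix (σ i) (σ i) =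
        ((x : Matrix.SpecialLinearGroup (Fin n) F) : Matrix (Fin n) (Fin n) F).submatrix
          (σ i) (σ i) *
        ((y : Matrix.SpecialLinearGroup (Fin n) F) : Matrix (Fin n) (Fin n) F).submatrix
          (σ i) (σ i) := by
      rw [Matrix.submatrix_mul_equiv]
      rfl
    rw [hN, hN, hN, h1]
    noncomm_ring
  have hN1 : ∀ i, N i 1 = 0 := by
    intro i
    rw [hN]
    show (1 : Matrix (Fin n) (Fin n) F).submatrix (σ i) (σ i) - 1 = 0
    rw [Matrix.submatrix_one_equiv, sub_self]
  have hdetN : ∀ i t, (1 + N i t).det = 1 := by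
    intro i t
    rw [hN, add_sub_cancel, Matrix.det_submatrix_equiv_self]
    exact t.1.2
  have hdet : ∀ (t : Fin K → T) (s : Finset (Fin K)), (1 + ∑ i ∈ s, N i (t i)).det = 1 := by
    intro t s
    induction s using Finset.induction_on with
    | empty => rw [Finset.sum_empty, add_zero, Matrix.det_one]
    | insert a s ha ih =>
      have h1 : N a (t a) * ∑ i ∈ s, N i (t i) = 0 := by
        rw [Finset.mul_sum]
        refine Finset.sum_eq_zero fun i hi => hNN _ _ _ _ ?_
        rintro rfl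
        exact ha hi
      have h2 : 1 + ∑ i ∈ insert a s, N i (t i) =
          (1 + N a (t a)) * (1 + ∑ i ∈ s, N i (t i)) := by
        rw [Finset.sum_insert ha, add_mul, one_mul, mul_add, mul_one, h1]
        abel
      rw [h2, Matrix.det_mul, hdetN, ih, mul_one]
  obtain ⟨ψ, hψ⟩ : ∃ ψ : (Fin K → T) →* Matrix.SpecialLinearGroup (Fin n) F,
      ∀ t, (ψ t : Matrix (Fin n) (Fin n) F) = 1 + ∑ i, N i (t i) := by
    refine ⟨{ toFun := fun t => ⟨1 + ∑ i, N i (t i), hdet t _⟩, map_one' := ?_,
              map_mul' := ?_ }, fun t => rfl⟩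
    · apply Subtype.ext
      show 1 + ∑ i, N i 1 = 1
      rw [Finset.sum_eq_zero fun i _ => hN1 i, add_zero]
    · intro t t'
      apply Subtype.ext
      show 1 + ∑ i, N i (t i * t' i) = (1 + ∑ i, N i (t i)) * (1 + ∑ i, N i (t' i))
      have h1 : (∑ i, N i (t i)) * ∑ i, N i (t' i) = ∑ i, N i (t i) * N i (t' i) := by
        rw [Finset.sum_mul_sum]
        refine Finset.sum_congr rfl fun i _ => ?_
        rw [Finset.sum_eq_single i]
        · intro j _ hj
          exact hNN _ _ _ _ hj.symm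
        · intro h
          exact absurd (Finset.mem_univ _) h
      rw [add_mul, one_mul, mul_add, mul_one, h1, Finset.sum_congr rfl fun i _ => hNmul i _ _,
        Finset.sum_add_distrib, Finset.sum_add_distrib]
      abel
  have hψs : ∀ (i : Fin K) (t : T), (ψ (Pi.mulSingle i t) : Matrix (Fin n) (Fin n) F) =
      ((t : Matrix.SpecialLinearGroup (Fin n) F) : Matrix (Fin n) (Fin n) F).submatrix
        (σ i) (σ i) := by
    intro i t
    rw [hψ, Finset.sum_eq_single i]
    · rw [Pi.mulSingle_eq_same, hN, add_sub_cancel]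
    · intro j _ hj
      rw [Pi.mulSingle_eq_of_ne hj, hN1]
    · intro h
      exact absurd (Finset.mem_univ _) h
  have hψ0 : ∀ t : T, ψ (Pi.mulSingle ⟨0, hK⟩ t) = t := by
    intro t
    apply Subtype.ext
    rw [hψs]
    ext a b
    have h0 : ∀ a, σ ⟨0, hK⟩ a = a := fun a => Fin.ext (by
      rw [hσv]
      show sw (0 * r) r (a : ℕ) = a
      rw [zero_mul, sw_zero])
    rw [Matrix.submatrix_apply, h0, h0]
  refine ⟨ψ, ⟨0, hK⟩, hψ0, ?_, fun t => ⟨?_, ?_⟩⟩
  · intro i t
    rw [hψ0]
    obtain ⟨d, hd⟩ : ∃ d : Fin n → F, ∀ a, d a = if a = ⟨K * r, hn⟩ then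
      ((Equiv.Perm.sign (σ i) : ℤ) : F) else 1 := ⟨_, fun _ => rfl⟩
    have hdd : ((σ i).permMatrix F * Matrix.diagonal d).det = 1 := by
      rw [Matrix.det_mul, Matrix.det_permutation, Matrix.det_diagonal,
        Finset.prod_congr rfl fun a _ => hd a, Finset.prod_ite_eq' , if_pos (Finset.mem_univ _),
        ← Int.cast_mul, ← Units.val_mul, Int.units_mul_self, Units.val_one, Int.cast_one]
    refine ⟨⟨(σ i).permMatrix F * Matrix.diagonal d, hdd⟩, ?_⟩
    rw [eq_mul_inv_iff_mul_eq]
    apply Subtype.ext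
    show (ψ (Pi.mulSingle i t) : Matrix (Fin n) (Fin n) F) *
      ((σ i).permMatrix F * Matrix.diagonal d) = (σ i).permMatrix F * Matrix.diagonal d *
        ((t : Matrix.SpecialLinearGroup (Fin n) F) : Matrix (Fin n) (Fin n) F)
    rw [hψs, ← mul_assoc]
    have h1 : ((t : Matrix.SpecialLinearGroup (Fin n) F) : Matrix (Fin n) (Fin n) F).submatrix
        (σ i) (σ i) * (σ i).permMatrix F = (σ i).permMatrix F *
        ((t : Matrix.SpecialLinearGroup (Fin n) F) : Matrix (Fin n) (Fin n) F) := by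
      show _ * (σ i).toPEquiv.toMatrix = (σ i).toPEquiv.toMatrix * _
      rw [PEquiv.mul_toMatrix_toPEquiv, PEquiv.toMatrix_toPEquiv_mul, Matrix.submatrix_submatrix]
      ext a b
      rw [Matrix.submatrix_apply, Matrix.submatrix_apply, Function.comp_apply,
        Function.comp_apply, Equiv.apply_symm_apply]
      rfl
    have h2 : ((t : Matrix.SpecialLinearGroup (Fin n) F) : Matrix (Fin n) (Fin n) F) *
        Matrix.diagonal d = Matrix.diagonal d *
        ((t : Matrix.SpecialLinearGroup (Fin n) F) : Matrix (Fin n) (Fin n) F) := by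
      have hrK : r ≤ K * r := Nat.le_mul_of_pos_left r hK
      ext a b
      rw [Matrix.mul_diagonal, Matrix.diagonal_mul]
      by_cases ha : a = ⟨K * r, hn⟩
      · rw [hT t.1 t.2 a b (Or.inl (by rw [ha]; exact hrK)), Matrix.one_apply]
        split_ifs with hab
        · rw [hab, mul_comm]
        · rw [zero_mul, mul_zero]
      · by_cases hb : b = ⟨K * r, hn⟩
        · rw [hT t.1 t.2 a b (Or.inr (by rw [hb]; exact hrK)), Matrix.one_apply]
          split_ifs with hab
          · rw [hab, mul_comm]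
          · rw [zero_mul, mul_zero]
        · rw [hd, hd, if_neg ha, if_neg hb, mul_comm]
    rw [h1, mul_assoc, h2, mul_assoc]
  · have hex : ∀ i : {i // t i ≠ 1}, ∃ ab : Fin n × Fin n,
        (((t i : T) : Matrix.SpecialLinearGroup (Fin n) F) : Matrix (Fin n) (Fin n) F) ab.1 ab.2 ≠
          (1 : Matrix (Fin n) (Fin n) F) ab.1 ab.2 := by
      intro i
      by_contra hcon
      push Not at hcon
      apply i.2
      apply Subtype.ext
      apply Subtype.ext
      ext a b
      exact hcon (a, b)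
    choose ab hab using hex
    have hlt : ∀ i : {i // t i ≠ 1}, ((ab i).1 : ℕ) < r ∧ ((ab i).2 : ℕ) < r := by
      intro i
      constructor
      · by_contra h
        exact hab i (hT _ (t i).2 _ _ (Or.inl (not_lt.1 h)))
      · by_contra h
        exact hab i (hT _ (t i).2 _ _ (Or.inr (not_lt.1 h)))
    have hsub : ((ψ t : Matrix (Fin n) (Fin n) F) - 1).submatrix
        (fun i : {i // t i ≠ 1} => σ i (ab i).1) (fun i : {i // t i ≠ 1} => σ i (ab i).2) =
        Matrix.diagonal fun i : {i // t i ≠ 1} =>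
          (((t i : T) : Matrix.SpecialLinearGroup (Fin n) F) : Matrix (Fin n) (Fin n) F)
            (ab i).1 (ab i).2 - (1 : Matrix (Fin n) (Fin n) F) (ab i).1 (ab i).2 := by
      ext i j
      rw [Matrix.submatrix_apply, hψ, add_sub_cancel_left, Matrix.sum_apply,
        Matrix.diagonal_apply, Finset.sum_eq_single (i : Fin K)]
      · split_ifs with hij
        · subst hij
          rw [hNe, hσσ, hσσ]
        · apply hN0
          right
          by_contra h
          apply hij
          apply Subtype.ext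
          refine hdis _ _ (σ j (ab j).2) (not_le.1 h) ?_
          rw [hσσ]
          exact (hlt j).2
      · intro k _ hk
        apply hN0
        left
        by_contra h
        apply hk
        refine hdis _ _ (σ i (ab i).1) (not_le.1 h) ?_
        rw [hσσ]
        exact (hlt i).1
      · intro h
        exact absurd (Finset.mem_univ _) h
    have h6 := Matrix.rank_submatrix_le ((ψ t : Matrix (Fin n) (Fin n) F) - 1)
      (fun i : {i // t i ≠ 1} => σ i (ab i).1) (fun i : {i // t i ≠ 1} => σ i (ab i).2)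
    rw [hsub, Matrix.rank_diagonal] at h6
    refine le_trans (le_of_eq ?_) h6
    rw [Nat.card_eq_fintype_card]
    refine Fintype.card_congr ⟨fun i => ⟨i, sub_ne_zero.2 (hab i)⟩, fun i => i.1,
      fun i => rfl, fun i => rfl⟩
  · set M : Matrix (Fin n) (Fin n) F := (ψ t : Matrix (Fin n) (Fin n) F) - 1 with hM
    have hz : ∀ a c : Fin n, K * r ≤ (a : ℕ) → M a c = 0 := by
      intro a c ha
      rw [hM, hψ, add_sub_cancel_left, Matrix.sum_apply]
      refine Finset.sum_eq_zero fun i _ => hN0 _ _ _ _ (Or.inl ?_)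
      rw [hσv]
      by_contra h
      rw [not_le, sw_lt_r (hm i)] at h
      have := hmn i
      omega
    let A : Matrix (Fin n) (Fin (K * r)) F := fun i c => if (i : ℕ) = (c : ℕ) then 1 else 0
    let B : Matrix (Fin (K * r)) (Fin n) F := fun c i => M (Fin.castLE hn.le c) i
    have hAB : M = A * B := by
      ext i c
      rw [Matrix.mul_apply]
      rcases lt_or_ge (i : ℕ) (K * r) with hi | hi
      · rw [Finset.sum_eq_single (⟨i, hi⟩ : Fin (K * r))]
        · show M i c = (if (i : ℕ) = (i : ℕ) then (1 : F) else 0) * M (Fin.castLE hn.le ⟨i, hi⟩) c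
          rw [if_pos rfl, one_mul]
          rfl
        · intro x _ hne
          show (if (i : ℕ) = (x : ℕ) then (1 : F) else 0) * _ = 0
          rw [if_neg, zero_mul]
          intro h
          exact hne (Fin.ext h.symm)
        · intro h
          exact absurd (Finset.mem_univ _) h
      · rw [hz i c hi]
        symm
        apply Finset.sum_eq_zero
        intro x _
        show (if (i : ℕ) = (x : ℕ) then (1 : F) else 0) * _ = 0
        rw [if_neg, zero_mul]
        have := x.2
        omega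
    rw [hAB]
    refine (Matrix.rank_mul_le_left A B).trans ((Matrix.rank_le_card_width A).trans ?_)
    rw [Fintype.card_fin]

end Pool.Agent.H82.BH
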